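import Pool.Agent.Helper49.KR.St

/-! Project KR: module PRT (the derived matrices are admissible) -/

set_option autoImplicit false

namespace Pool.Agent.Helper69.KR

open Finset Filter Topology Module
open Pool.Agent.Helper49.KX Pool.Agent.Helper49.KR

theorem coe_intP (n : ℤ) : (((n : ℝ) : ℝ) : X0) = 0 := by
  rw [AddCircle.coe_eq_zero_iff]
  exact ⟨n, by simp⟩

theorem cw_int (θ : ℝ) (r : ℕ) (g : FS X0) (s : ℝ) (n : ℤ) : cw θ r g (s + n) = cw θ r g s := by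
  funext k i
  unfold cw
  have : ((s + n + ((k : ℕ) : ℝ) * θ : ℝ) : X0) = ((s + ((k : ℕ) : ℝ) * θ : ℝ) : X0) := by
    have e : (s + n + ((k : ℕ) : ℝ) * θ : ℝ) = (s + ((k : ℕ) : ℝ) * θ) + (n : ℝ) := by ring
    rw [e, AddCircle.coe_add, coe_intP, add_zero]
  rw [this]

theorem cw_cont (θ : ℝ) (r : ℕ) (g : FS X0) : Continuous (cw θ r g) := by
  refine continuous_matrix fun k i => ?_
  unfold cw
  refine (g _).continuous.comp ?_
  exact (AddCircle.continuous_mk' 1).comp (by fun_prop)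

theorem GG_cont (θ : ℝ) {r : ℕ} (g y : FS X0) (κ : Fin r → Fin 4)
    (u : ℝ → Matrix (Fin r) (Fin r) ℂ) (hu : Continuous u) : Continuous (GG θ g y κ u) := by
  refine continuous_matrix fun i l => ?_
  unfold GG Gm
  have h1 := cw_cont θ r g
  have h2 := cw_cont θ r y
  by_cases c0 : κ l = 0
  · simp only [c0, if_true]
    exact (h1.matrix_mul hu).matrix_elem i l
  · by_cases c1 : κ l = 1
    · simp only [c1, if_true]
      simp only [show ((1 : Fin 4) = 0) = False from by simp, if_false]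
      exact (hu.sub (h1.matrix_mul hu)).matrix_elem i l
    · by_cases c2 : κ l = 2
      · simp only [c2, if_true]
        simp only [show ((2 : Fin 4) = 0) = False from by simp,
          show ((2 : Fin 4) = 1) = False from by simp, if_false]
        exact (h2.matrix_mul hu).matrix_elem i l
      · simp only [c0, c1, c2, if_false]
        exact hu.matrix_elem i l

theorem inv_cont {r : ℕ} (G : ℝ → Matrix (Fin r) (Fin r) ℂ) (hG : Continuous G)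
    (hu : ∀ s, IsUnit (G s)) : Continuous fun s => (G s)⁻¹ := by
  have : (fun s => (G s)⁻¹) = fun s => (G s).det⁻¹ • (G s).adjugate := by
    funext s
    rw [Matrix.inv_def, Ring.inverse_eq_inv']
  rw [this]
  have h1 : Continuous fun s => (G s).det⁻¹ :=
    Continuous.inv₀ hG.matrix_det fun s => ((Matrix.isUnit_iff_isUnit_det _).mp (hu s)).ne_zero
  exact h1.smul hG.matrix_adjugate

/-- the point of `[a, b]` nearest to `s` -/
noncomputable def cl (a b s : ℝ) : ℝ := max a (min b s)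

theorem cl_cont (a b : ℝ) : Continuous (cl a b) := by unfold cl; fun_prop

theorem cl_mem {a b : ℝ} (h : a ≤ b) (s : ℝ) : a ≤ cl a b s ∧ cl a b s ≤ b :=
  ⟨le_max_left _ _, max_le h (min_le_left _ _)⟩

theorem cl_eq {a b s : ℝ} (h1 : a ≤ s) (h2 : s ≤ b) : cl a b s = s := by
  unfold cl
  rw [min_eq_right h2, max_eq_right h1]

theorem core (hBsm : StBsm) {δ1 δ2 ε : ℝ} {q1 q2 : ℕ}
    (P0 G0 : ℝ → Matrix (Fin q1) (Fin q1) ℂ) (P1 G1 : ℝ → Matrix (Fin q2) (Fin q2) ℂ)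
    (P2 G2 : ℝ → Matrix (Fin (q1 + q2)) (Fin (q1 + q2)) ℂ)
    (hP0 : Continuous P0) (hG0 : Continuous G0) (hP1 : Continuous P1) (hG1 : Continuous G1)
    (hP2 : Continuous P2) (hG2 : Continuous G2) (hε : 0 < ε) (h1 : 4 * ε < δ1) (h2 : 4 * ε < δ2)
    (i0 : ∀ s, 0 ≤ s → s ≤ δ2 → IsUnit (G0 s)) (i1 : ∀ s, -δ1 ≤ s → s ≤ 0 → IsUnit (G1 s))
    (i2 : ∀ s, -ε ≤ s → s ≤ ε → IsUnit (G2 s))
    (oP : ∀ s, ε / 2 ≤ s → s ≤ ε → P2 s = bsm (P0 s) (P1 (s - δ1)))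
    (oG : ∀ s, ε / 2 ≤ s → s ≤ ε → G2 s = bsm (G0 s) (G1 (s - δ1)))
    (mP : ∀ s, -ε ≤ s → s ≤ -(ε / 2) → P2 s = (bsc (P1 s) (P0 (s + δ2))).submatrix id (swp q1 q2))
    (mG : ∀ s, -ε ≤ s → s ≤ -(ε / 2) → G2 s = (bsc (G1 s) (G0 (s + δ2))).submatrix id (swp q1 q2))
    (Z0 : Matrix (Fin q1) (Fin q1) ℂ) (Z1 : Matrix (Fin q2) (Fin q2) ℂ) :
    ∃ (M0 : ℝ → Matrix (Fin q1) (Fin q1) ℂ) (M1 : ℝ → Matrix (Fin q2) (Fin q2) ℂ)
      (M2 : ℝ → Matrix (Fin (q1 + q2)) (Fin (q1 + q2)) ℂ), Adm q1 q2 δ1 δ2 ε M0 M1 M2 ∧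
      (∀ s, 0 ≤ s → s ≤ δ2 → M0 s = tri P0 G0 Z0 s) ∧
      (∀ s, -δ1 ≤ s → s ≤ 0 → M1 s = tri P1 G1 Z1 s) ∧
      ∀ s, -ε ≤ s → s ≤ ε → M2 s = tri P2 G2 (bsm Z0 Z1) s := by
  have hδ1 : 0 < δ1 := by linarith
  have hδ2 : 0 < δ2 := by linarith
  have cont : ∀ {r : ℕ} (P G : ℝ → Matrix (Fin r) (Fin r) ℂ) (Z : Matrix (Fin r) (Fin r) ℂ)
      (a b : ℝ), a ≤ b → Continuous P → Continuous G → (∀ s, a ≤ s → s ≤ b → IsUnit (G s)) →
      Continuous fun s => tri P G Z (cl a b s) := by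
    intro r P G Z a b hab hP hG hu
    unfold tri
    have e1 : Continuous fun s => P (cl a b s) := hP.comp (cl_cont a b)
    have e2 : Continuous fun s => (G (cl a b s))⁻¹ :=
      inv_cont (fun s => G (cl a b s)) (hG.comp (cl_cont a b)) fun s =>
        hu _ (cl_mem hab s).1 (cl_mem hab s).2
    exact (e1.matrix_mul continuous_const).matrix_mul e2
  obtain ⟨b1, -, b3⟩ := hBsm q1 q2
  refine ⟨fun s => tri P0 G0 Z0 (cl 0 δ2 s), fun s => tri P1 G1 Z1 (cl (-δ1) 0 s),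
    fun s => tri P2 G2 (bsm Z0 Z1) (cl (-ε) ε s), ⟨?_, ?_, ?_, ?_, ?_⟩, ?_, ?_, ?_⟩
  · exact cont P0 G0 Z0 0 δ2 hδ2.le hP0 hG0 i0
  · exact cont P1 G1 Z1 (-δ1) 0 (by linarith) hP1 hG1 i1
  · exact cont P2 G2 (bsm Z0 Z1) (-ε) ε (by linarith) hP2 hG2 i2
  · intro s hs1 hs2
    rw [cl_eq (by linarith : -ε ≤ s) hs2, cl_eq (by linarith : (0 : ℝ) ≤ s) (by linarith : s ≤ δ2),
      cl_eq (by linarith : -δ1 ≤ s - δ1) (by linarith : s - δ1 ≤ 0)]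
    unfold tri
    rw [oP s hs1 hs2, oG s hs1 hs2]
    have u0 := i0 s (by linarith) (by linarith)
    have u1 := i1 (s - δ1) (by linarith) (by linarith)
    rw [((b1 (G0 s) (G0 s) (G1 (s - δ1)) (G1 (s - δ1))).2.2 u0 u1).2,
      ← (b1 (P0 s) Z0 (P1 (s - δ1)) Z1).1,
      ← (b1 (P0 s * Z0) (G0 s)⁻¹ (P1 (s - δ1) * Z1) (G1 (s - δ1))⁻¹).1]
  · intro s hs1 hs2
    rw [cl_eq hs1 (by linarith : s ≤ ε), cl_eq (by linarith : -δ1 ≤ s) (by linarith : s ≤ 0),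
      cl_eq (by linarith : (0 : ℝ) ≤ s + δ2) (by linarith : s + δ2 ≤ δ2)]
    unfold tri
    rw [mP s hs1 hs2, mG s hs1 hs2]
    have u1 := i1 s (by linarith) (by linarith)
    have u0 := i0 (s + δ2) (by linarith) (by linarith)
    exact (b3 (G0 (s + δ2)) (P0 (s + δ2)) (G1 s) (P1 s) u0 u1).2 Z0 Z1
  · intro s hs1 hs2
    simp only
    rw [cl_eq hs1 hs2]
  · intro s hs1 hs2
    simp only
    rw [cl_eq hs1 hs2]
  · intro s hs1 hs2
    simp only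
    rw [cl_eq hs1 hs2]

theorem hPRT : StPrt := by
  intro hBlk hBlc hBsm θ δ1 δ2 ε q1 q2 N N' g y κ0 κ1 σ0 σ1 u0 u1 u2 hR hε h1 h2 hgN hyN hD Z0 Z1
  have hδ1 : 0 < δ1 := by linarith
  have hδ2 : 0 < δ2 := by linarith
  obtain ⟨n1, e1⟩ := hR.e1
  obtain ⟨n2, e2⟩ := hR.e2
  have cG0 := GG_cont θ g y κ0 u0 hD.c0
  have cG1 := GG_cont θ g y κ1 u1 hD.c1
  have cG2 := GG_cont θ g y (Fin.append κ0 κ1) u2 hD.c2
  have oG : ∀ s, ε / 2 ≤ s → s ≤ ε → GG θ g y (Fin.append κ0 κ1) u2 s =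
      bsm (GG θ g y κ0 u0 s) (GG θ g y κ1 u1 (s - δ1)) := by
    intro s hs1 hs2
    have hb := (hBlk θ q1 q2 N N' g y κ0 κ1 (u0 s) (u1 (s - δ1)) s hgN hyN (hD.m0 s)
      (hD.m1 (s - δ1))).2
    have es : s + (q1 : ℝ) * θ = (s - δ1) + n1 := by rw [e1]; ring
    rw [es, cw_int, cw_int] at hb
    unfold GG
    rw [hD.mp s hs1 hs2]
    exact hb
  have mG : ∀ s, -ε ≤ s → s ≤ -(ε / 2) → GG θ g y (Fin.append κ0 κ1) u2 s =
      (bsc (GG θ g y κ1 u1 s) (GG θ g y κ0 u0 (s + δ2))).submatrix id (swp q1 q2) := by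
    intro s hs1 hs2
    have hb := (hBlc hBlk θ q1 q2 N N' g y κ0 κ1 (u0 (s + δ2)) (u1 s) s hgN hyN
      (hD.m0 (s + δ2)) (hD.m1 s)).2
    have es : s + (q2 : ℝ) * θ = (s + δ2) + n2 := by rw [e2]; ring
    rw [es, cw_int, cw_int] at hb
    unfold GG
    rw [hD.mm s hs1 hs2]
    exact hb
  constructor
  · exact core hBsm _ _ _ _ _ _ cG0 cG0 cG1 cG1 cG2 cG2 hε h1 h2 hD.g0 hD.g1 hD.g2 oG oG mG mG Z0 Z1
  · exact core hBsm _ _ _ _ _ _ hD.c0 cG0 hD.c1 cG1 hD.c2 cG2 hε h1 h2 hD.g0 hD.g1 hD.g2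
      hD.mp oG hD.mm mG Z0 Z1

end Pool.Agent.Helper69.KR
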