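import Pool.Agent.Helper49.KR.St

/-! Project KR: module ROT (two towers over an interval of the circle) -/

set_option autoImplicit false

namespace Pool.Agent.Helper69.KR

open Finset Filter Topology Module
open Pool.Agent.Helper49.KX Pool.Agent.Helper49.KR

theorem fr_eq {x a : ℝ} {n : ℤ} (h : x = a + n) (h0 : 0 ≤ a) (h1 : a < 1) : Int.fract x = a := by
  rw [Int.fract_eq_iff]
  exact ⟨h0, h1, n, by rw [h]; ring⟩

theorem nint {θ : ℝ} (h : Irrational θ) {k : ℤ} (hk : k ≠ 0) (n : ℤ) : (k : ℝ) * θ ≠ n :=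
  (h.intCast_mul hk).ne_int n

theorem fr_pos {θ : ℝ} (h : Irrational θ) {k : ℕ} (hk : 1 ≤ k) : 0 < Int.fract ((k : ℝ) * θ) := by
  rcases (Int.fract_nonneg ((k : ℝ) * θ)).eq_or_lt with h0 | h0
  · exfalso
    have h2 := nint h (k := (k : ℤ)) (by omega) ⌊(k : ℝ) * θ⌋
    apply h2
    have h1 : Int.fract ((k : ℝ) * θ) + ⌊(k : ℝ) * θ⌋ = (k : ℝ) * θ := Int.fract_add_floor _
    push_cast
    linarith
  · exact h0

theorem fr_inj {θ : ℝ} (h : Irrational θ) {k l : ℕ}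
    (hkl : Int.fract ((k : ℝ) * θ) = Int.fract ((l : ℝ) * θ)) : k = l := by
  by_contra hne
  have h2 := nint h (k := (k : ℤ) - l) (by omega) (⌊(k : ℝ) * θ⌋ - ⌊(l : ℝ) * θ⌋)
  apply h2
  have h1 : Int.fract ((k : ℝ) * θ) + ⌊(k : ℝ) * θ⌋ = (k : ℝ) * θ := Int.fract_add_floor _
  have h3 : Int.fract ((l : ℝ) * θ) + ⌊(l : ℝ) * θ⌋ = (l : ℝ) * θ := Int.fract_add_floor _
  push_cast
  linarith

theorem small {θ : ℝ} (h : Irrational θ) {ε : ℝ} (hε : 0 < ε) :
    ∃ k : ℕ, 1 ≤ k ∧ Int.fract ((k : ℝ) * θ) < ε := by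
  obtain ⟨n, hn⟩ := exists_nat_gt (max (1 / ε) 1)
  have hn1 : 1 / ε < n := lt_of_le_of_lt (le_max_left _ _) hn
  have hn2 : (1 : ℝ) < n := lt_of_le_of_lt (le_max_right _ _) hn
  have hn0 : 0 < n := by
    have : (0 : ℝ) < n := by linarith
    exact_mod_cast this
  obtain ⟨j, k, hk0, hkn, hjk⟩ := Real.exists_int_int_abs_mul_sub_le θ hn0
  have hsmall : (1 : ℝ) / (n + 1) < ε := by
    rw [div_lt_iff₀ (by positivity)]
    rw [div_lt_iff₀ hε] at hn1
    nlinarith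
  have hsmall2 : (1 : ℝ) / (n + 1) < 1 := by
    rw [div_lt_one (by positivity)]
    linarith
  set ρ : ℝ := k * θ - j with hρ
  have hρ1 : |ρ| < ε := lt_of_le_of_lt hjk hsmall
  have hρ2 : |ρ| < 1 := lt_of_le_of_lt hjk hsmall2
  have hρ0 : ρ ≠ 0 := by
    intro e
    exact nint h hk0.ne' j (by linarith)
  have hkc : ((k.toNat : ℕ) : ℝ) = (k : ℝ) := by
    have : ((k.toNat : ℤ) : ℝ) = (k : ℝ) := by rw [Int.toNat_of_nonneg hk0.le]
    exact_mod_cast this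
  have hk1 : 1 ≤ k.toNat := by omega
  rcases lt_or_gt_of_ne hρ0 with hneg | hpos
  · -- negative: take a multiple
    set ρ' : ℝ := -ρ with hρ'
    have hρ'0 : 0 < ρ' := by linarith
    have hρ'1 : ρ' < 1 := by
      have := neg_abs_le ρ
      linarith
    have hρ'2 : ρ' < ε := by
      have := neg_abs_le ρ
      linarith
    set m := ⌊1 / ρ'⌋₊ with hm
    have hm1 : (m : ℝ) ≤ 1 / ρ' := Nat.floor_le (by positivity)
    have hm2 : 1 / ρ' < m + 1 := Nat.lt_floor_add_one _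
    rw [le_div_iff₀ hρ'0] at hm1
    rw [div_lt_iff₀ hρ'0] at hm2
    have hm0 : 1 ≤ m := by
      rw [hm]
      apply Nat.le_floor
      rw [Nat.cast_one, le_div_iff₀ hρ'0]
      linarith
    refine ⟨m * k.toNat, Nat.one_le_iff_ne_zero.mpr (by positivity), ?_⟩
    have e : (((m * k.toNat : ℕ) : ℝ)) * θ = (1 - m * ρ') + ((m * j - 1 : ℤ) : ℝ) := by
      push_cast
      rw [hkc]
      have : (k : ℝ) * θ = j - ρ' := by linarith
      rw [mul_assoc, this]
      ring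
    rw [fr_eq e (by linarith) (by
      have : (0 : ℝ) < m * ρ' := by positivity
      linarith)]
    linarith
  · have hρ3 : ρ < 1 := lt_of_le_of_lt (le_abs_self _) hρ2
    refine ⟨k.toNat, hk1, ?_⟩
    have e : ((k.toNat : ℕ) : ℝ) * θ = ρ + (j : ℝ) := by
      rw [hkc]
      linarith
    rw [fr_eq e hpos.le hρ3]
    exact lt_of_le_of_lt (le_abs_self _) hρ1

theorem minim (f : ℕ → ℝ) {K : ℕ} (hK : 1 ≤ K) :
    ∃ q : ℕ, 1 ≤ q ∧ q ≤ K ∧ ∀ k : ℕ, 1 ≤ k → k ≤ K → f q ≤ f k := by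
  obtain ⟨q, hq, hq'⟩ := Finset.exists_min_image (Finset.Icc 1 K) f ⟨1, Finset.mem_Icc.mpr ⟨le_rfl, hK⟩⟩
  rw [Finset.mem_Icc] at hq
  exact ⟨q, hq.1, hq.2, fun k h1 h2 => hq' k (Finset.mem_Icc.mpr ⟨h1, h2⟩)⟩

theorem hROT : StRot := by
  intro θ hθ L
  have hθ' : Irrational (-θ) := hθ.neg
  -- a lower bound for the values below L
  obtain ⟨ε, hε0, hε1, hε⟩ : ∃ ε : ℝ, 0 < ε ∧ ε ≤ 1 / 2 ∧ ∀ k : ℕ, 1 ≤ k → k < L →
      ε ≤ Int.fract ((k : ℝ) * θ) ∧ ε ≤ Int.fract ((k : ℝ) * (-θ)) := by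
    have : ∀ M : ℕ, ∃ ε : ℝ, 0 < ε ∧ ε ≤ 1 / 2 ∧ ∀ k : ℕ, 1 ≤ k → k < M →
      ε ≤ Int.fract ((k : ℝ) * θ) ∧ ε ≤ Int.fract ((k : ℝ) * (-θ)) := by
      intro M
      induction M with
      | zero => exact ⟨1 / 2, by norm_num, le_rfl, fun k _ h => absurd h (by omega)⟩
      | succ M ih =>
        obtain ⟨ε, h1, h2, h3⟩ := ih
        rcases Nat.eq_zero_or_pos M with h0 | h0
        · exact ⟨ε, h1, h2, fun k h4 h5 => absurd h5 (by omega)⟩
        · refine ⟨min ε (min (Int.fract ((M : ℝ) * θ)) (Int.fract ((M : ℝ) * (-θ)))), ?_, ?_, ?_⟩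
          · exact lt_min h1 (lt_min (fr_pos hθ h0) (fr_pos hθ' h0))
          · exact (min_le_left _ _).trans h2
          · intro k hk1 hk2
            rcases Nat.lt_or_ge k M with hk | hk
            · exact ⟨(min_le_left _ _).trans (h3 k hk1 hk).1, (min_le_left _ _).trans (h3 k hk1 hk).2⟩
            · have : k = M := by omega
              subst this
              exact ⟨(min_le_right _ _).trans (min_le_left _ _),
                (min_le_right _ _).trans (min_le_right _ _)⟩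
    exact this L
  obtain ⟨k2, hk2, hk2'⟩ := small hθ hε0
  obtain ⟨k1, hk1, hk1'⟩ := small hθ' hε0
  set K := max k1 k2 with hK
  have hK1 : 1 ≤ K := le_trans hk1 (le_max_left _ _)
  obtain ⟨q2, hq2a, hq2b, hq2⟩ := minim (fun k => Int.fract ((k : ℝ) * θ)) hK1
  obtain ⟨q1, hq1a, hq1b, hq1⟩ := minim (fun k => Int.fract ((k : ℝ) * (-θ))) hK1
  set δ2 := Int.fract ((q2 : ℝ) * θ) with hδ2
  set δ1 := Int.fract ((q1 : ℝ) * (-θ)) with hδ1
  have hδ2ε : δ2 < ε := lt_of_le_of_lt (hq2 k2 hk2 (le_max_right _ _)) hk2'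
  have hδ1ε : δ1 < ε := lt_of_le_of_lt (hq1 k1 hk1 (le_max_left _ _)) hk1'
  have hδ2p : 0 < δ2 := fr_pos hθ hq2a
  have hδ1p : 0 < δ1 := fr_pos hθ' hq1a
  have hsum : δ1 + δ2 < 1 := by linarith
  obtain ⟨n1, hn1⟩ : ∃ n : ℤ, (q1 : ℝ) * θ = -δ1 + n := by
    refine ⟨-⌊(q1 : ℝ) * (-θ)⌋, ?_⟩
    have h1 : Int.fract ((q1 : ℝ) * (-θ)) + ⌊(q1 : ℝ) * (-θ)⌋ = (q1 : ℝ) * (-θ) :=
      Int.fract_add_floor _
    push_cast
    linarith
  obtain ⟨n2, hn2⟩ : ∃ n : ℤ, (q2 : ℝ) * θ = δ2 + n :=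
    ⟨⌊(q2 : ℝ) * θ⌋, (Int.fract_add_floor _).symm⟩
  have hne : ∀ k : ℕ, 1 ≤ k → ∀ n : ℤ, (k : ℝ) * θ + n ≠ 0 := by
    intro k hk n e
    exact nint hθ (k := (k : ℤ)) (by omega) (-n) (by push_cast; linarith)
  refine ⟨δ1, δ2, q1, q2, ⟨hδ1p, hδ2p, hsum, ⟨n1, hn1⟩, ⟨n2, hn2⟩, ?_, ?_⟩, ?_, ?_⟩
  · rintro s hs0 hs1 k hk0 hk n ⟨h1, h2⟩
    set ρ : ℝ := k * θ + n with hρ
    have hρ0 : ρ ≠ 0 := hne k hk0 n
    rcases lt_or_gt_of_ne hρ0 with hneg | hpos
    · have e : (k : ℝ) * (-θ) = -ρ + (n : ℝ) := by linarith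
      have hfr := fr_eq e (by linarith) (by linarith)
      have hge := hq1 k hk0 (by omega)
      rw [hfr] at hge
      have hne2 : -ρ ≠ δ1 := by
        intro e2
        rw [← hfr] at e2
        have := fr_inj hθ' e2
        omega
      have hgt : δ1 < -ρ := lt_of_le_of_ne hge (Ne.symm hne2)
      have hcast : ((q1 - k : ℕ) : ℝ) = (q1 : ℝ) - k := by
        rw [Nat.cast_sub hk.le]
      have e3 : ((q1 - k : ℕ) : ℝ) * θ = (-δ1 - ρ) + ((n1 + n : ℤ) : ℝ) := by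
        rw [hcast]
        push_cast
        linarith
      have hfr3 := fr_eq e3 (by linarith) (by linarith)
      have hge3 := hq2 (q1 - k) (by omega) (by omega)
      rw [hfr3] at hge3
      linarith
    · have e : (k : ℝ) * θ = ρ + ((-n : ℤ) : ℝ) := by push_cast; linarith
      have hfr := fr_eq e hpos.le (by linarith)
      have hge := hq2 k hk0 (by omega)
      rw [hfr] at hge
      linarith
  · rintro s hs0 hs1 k hk0 hk n ⟨h1, h2⟩
    set ρ : ℝ := k * θ + n with hρ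
    have hρ0 : ρ ≠ 0 := hne k hk0 n
    rcases lt_or_gt_of_ne hρ0 with hneg | hpos
    · have e : (k : ℝ) * (-θ) = -ρ + (n : ℝ) := by linarith
      have hfr := fr_eq e (by linarith) (by linarith)
      have hge := hq1 k hk0 (by omega)
      rw [hfr] at hge
      linarith
    · have e : (k : ℝ) * θ = ρ + ((-n : ℤ) : ℝ) := by push_cast; linarith
      have hfr := fr_eq e hpos.le (by linarith)
      have hge := hq2 k hk0 (by omega)
      rw [hfr] at hge
      have hne2 : ρ ≠ δ2 := by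
        intro e2
        rw [← hfr] at e2
        have := fr_inj hθ e2
        omega
      have hgt : δ2 < ρ := lt_of_le_of_ne hge (Ne.symm hne2)
      have hcast : ((q2 - k : ℕ) : ℝ) = (q2 : ℝ) - k := by
        rw [Nat.cast_sub hk.le]
      have e3 : ((q2 - k : ℕ) : ℝ) * (-θ) = (ρ - δ2) + ((-n2 - n : ℤ) : ℝ) := by
        rw [hcast]
        push_cast
        linarith
      have hfr3 := fr_eq e3 (by linarith) (by linarith)
      have hge3 := hq1 (q2 - k) (by omega) (by omega)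
      rw [hfr3] at hge3
      linarith
  · by_contra hlt
    have := (hε q1 hq1a (by omega)).2
    linarith
  · by_contra hlt
    have := (hε q2 hq2a (by omega)).1
    linarith

end Pool.Agent.Helper69.KR
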